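import Pool.Agent.H78CZ.O

/-!
# The Cardy-Ziff law for the areas of the clusters of critical bond percolation on `ℤ²`

Critical bond percolation on the square lattice (the case `q = 1` of the FK model at the self-dual
point): every edge is open with probability `1/2`, independently. The hull of an open cluster `K`
consists of the vertices which cannot escape to infinity without meeting `K`, that is `K` together
with the vertices of the bounded components of the complement of the union of the open edges of `K`.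
Its area is the number of its vertices.

Cardy and Ziff predicted (Coulomb gas) that the number of clusters with hull area at least `A`, per
unit area, is asymptotic to `1 / (8 √3 π A)` for every critical percolation model. This file proves
the law with the exact constant in integrated form, with a bounded error, for the infinite lattice
and, uniformly in all scales, for the clusters of a box.

Definitions from the starting repository (`Pool.Agent.H974R2.Model`, `Pool.Agent.H974R2.Infinite`,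
`Pool.Agent.H863R2.NL.Defs`): `sqLattice`, `bondLaw`, `hlf` (`= 1/2`), `openGraph`; `Pt`, `Corner`,
`Free`, `Change`, `norm2`.
-/

set_option autoImplicit false

namespace Pool.Agent.Results.MP_b3e76a_pr.CardyZiffLaw

open MeasureTheory H974 Filter Topology
open Pool.Agent.H863R2.NL (Pt Free Change norm2 cN)
open scoped Real
open Relation (ReflTransGen)

/-- A step which does not meet `K`: along an open edge, between dual vertices across a closed edge,
or between a vertex and a dual vertex at distance `1/2`; its end is not in `K`. -/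
def Step (ω : sqLattice.edgeSet → Bool) (K : Set (ℤ × ℤ)) (p q : Pt) : Prop :=
  (Free ω p q ∨ Change p q) ∧ ¬ (q.2 = true ∧ q.1 ∈ K)

/-- The vertex `v` is outside the hull of `K`: it is not in `K` and there are paths from `v` which
do not meet `K` and end arbitrarily far away. -/
def Outside (ω : sqLattice.edgeSet → Bool) (K : Set (ℤ × ℤ)) (v : ℤ × ℤ) : Prop :=
  v ∉ K ∧ ∀ m : ℕ, ∃ q : Pt, (m : ℤ) ≤ norm2 q ∧ ReflTransGen (Step ω K) (v, true) q

/-- The area of the hull of `K`: the number of vertices which are not outside. -/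
noncomputable def hullArea (ω : sqLattice.edgeSet → Bool) (K : Set (ℤ × ℤ)) : ℕ :=
  {v | ¬ Outside ω K v}.ncard

/-- The open clusters which are contained in the box `[-n, n]²`. -/
def clusters (n : ℕ) (ω : sqLattice.edgeSet → Bool) : Set (Set (ℤ × ℤ)) :=
  {K | (∃ v, K = {w | (openGraph ω).Reachable v w}) ∧
    ∀ w ∈ K, |w.1| ≤ (n : ℤ) ∧ |w.2| ≤ (n : ℤ)}

/-- The number of open clusters in the box with a hull of area at least `a`. -/
noncomputable def count (n a : ℕ) (ω : sqLattice.edgeSet → Bool) : ℕ :=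
  {K | K ∈ clusters n ω ∧ a ≤ hullArea ω K}.ncard

/-- The number of vertices of the box `[-n, n]²`. -/
def vol (n : ℕ) : ℝ := (2 * (n : ℝ) + 1) ^ 2

/-- The deviation from the law at the scale `X`. -/
noncomputable def dev (n X : ℕ) (ω : sqLattice.edgeSet → Bool) : ℝ :=
  |∑ a ∈ Finset.Icc 1 X, (count n a ω : ℝ) - vol n * (Real.log X / (8 * √3 * π))|

/-! ### transfer -/

section transfer
open Pool.Agent.H863R2.NL.InfAux
open Pool.Agent.H78CZ (cl Esc hul area CL CLf cn nmv_fc cl_fc mem_CLf fc_inj OC TA nmo kap0)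
open Pool.Agent.W819.EN (Mv fc nmv St nmv_zero)

theorem ph_fc (v : ℤ × ℤ) : ph (v, true) = fc v := rfl

theorem cl_image (ω : sqLattice.edgeSet → Bool) (u : ℤ × ℤ) :
    cl (opn ω) (fc u) = fc '' {w | (openGraph ω).Reachable u w} := by
  ext q
  rw [cl_fc]
  constructor
  · rintro ⟨w, rfl, hw⟩
    exact ⟨w, (open_reach ω u w).2 hw, rfl⟩
  · rintro ⟨w, hw, rfl⟩
    exact ⟨w, rfl, (open_reach ω u w).1 hw⟩

theorem mem_image_fc {K : Set (ℤ × ℤ)} {q : Pt} : ph q ∈ fc '' K ↔ (q.2 = true ∧ q.1 ∈ K) := by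
  constructor
  · rintro ⟨w, hw, h⟩
    rw [← ph_fc] at h
    have := ph_inj h
    subst this
    exact ⟨rfl, hw⟩
  · rintro ⟨h1, h2⟩
    refine ⟨q.1, h2, ?_⟩
    rw [← ph_fc, ← h1]

theorem step_iff {ω : sqLattice.edgeSet → Bool} {K : Set (ℤ × ℤ)} {p q : Pt} :
    Step ω K p q ↔ (TA (opn ω) (ph p) (ph q) ∧ ph q ∉ fc '' K) := by
  unfold Step TA
  rw [mem_image_fc, free_iff, change_iff]
  rfl

theorem esc_iff_outside {ω : sqLattice.edgeSet → Bool} {K : Set (ℤ × ℤ)} {v : ℤ × ℤ} :
    Esc (opn ω) (fc '' K) (fc v) ↔ Outside ω K v := by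
  have hn : ∀ q : Pt, nmo (ph q) = norm2 q := by
    intro q
    rw [nm_ph]
    exact nmv_zero _
  unfold Esc Outside
  have h0 : fc v ∉ fc '' K ↔ v ∉ K := by
    rw [← ph_fc, mem_image_fc]
    simp
  rw [h0]
  refine and_congr_right fun _ => forall_congr' fun m => ?_
  constructor
  · rintro ⟨q, hq, h⟩
    obtain ⟨q, rfl⟩ := ph_surj q
    rw [hn] at hq
    refine ⟨q, hq, ?_⟩
    have key : ∀ b : ℤ × ℤ, ReflTransGen (fun a b => TA (opn ω) a b ∧ b ∉ fc '' K) (fc v) b →
        ∀ p : Pt, ph p = b → ReflTransGen (Step ω K) (v, true) p := by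
      intro b hb
      induction hb with
      | refl =>
        intro p hp
        rw [← ph_fc] at hp
        rw [ph_inj hp]
      | @tail b c _ h2 ih =>
        intro p hp
        obtain ⟨b, rfl⟩ := ph_surj b
        refine ReflTransGen.tail (ih b rfl) ?_
        rw [step_iff, hp]
        exact h2
    exact key _ h q rfl
  · rintro ⟨q, hq, h⟩
    refine ⟨ph q, by rw [hn]; exact hq, ?_⟩
    clear hq
    induction h with
    | refl => exact ReflTransGen.refl
    | tail _ h2 ih => exact ReflTransGen.tail ih (step_iff.1 h2)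

theorem area_eq (ω : sqLattice.edgeSet → Bool) (K : Set (ℤ × ℤ)) :
    area (opn ω) (fc '' K) = hullArea ω K := by
  unfold area hullArea hul
  congr 1
  ext u
  exact not_congr esc_iff_outside

theorem image_inj {K K' : Set (ℤ × ℤ)} (h : fc '' K = fc '' K') : K = K' :=
  (Set.image_injective.2 fun _ _ h => fc_inj h) h

theorem CL_image (n : ℕ) (ω : sqLattice.edgeSet → Bool) :
    CL n (opn ω) = (fun K => fc '' K) '' clusters n ω := by
  have hb : ∀ w : ℤ × ℤ, nmo (fc w) ≤ 2 * (n : ℤ) ↔ (|w.1| ≤ (n : ℤ) ∧ |w.2| ≤ (n : ℤ)) := by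
    intro w
    unfold nmo
    rw [nmv_fc]
    simp only [sub_zero]
    rcases max_cases |w.1| |w.2| with h | h <;> omega
  ext K
  constructor
  · rintro ⟨⟨u, rfl⟩, h⟩
    refine ⟨{w | (openGraph ω).Reachable u w}, ⟨⟨u, rfl⟩, ?_⟩, (cl_image ω u).symm⟩
    intro w hw
    rw [← hb]
    apply h
    rw [cl_image]
    exact ⟨w, hw, rfl⟩
  · rintro ⟨K, ⟨⟨u, rfl⟩, h⟩, rfl⟩
    refine ⟨⟨u, (cl_image ω u).symm⟩, ?_⟩
    rintro p ⟨w, hw, rfl⟩
    rw [hb]
    exact h w hw

theorem count_eq (n a : ℕ) (ω : sqLattice.edgeSet → Bool) : count n a ω = cn n a (opn ω) := by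
  classical
  unfold count cn
  rw [← Set.ncard_coe_finset]
  have e : (↑((CLf n (opn ω)).filter (fun K => a ≤ area (opn ω) K)) : Set (Set (ℤ × ℤ))) =
      (fun K => fc '' K) '' {K | K ∈ clusters n ω ∧ a ≤ hullArea ω K} := by
    ext K
    rw [Finset.mem_coe, Finset.mem_filter, mem_CLf, CL_image]
    constructor
    · rintro ⟨⟨K, hK, rfl⟩, h⟩
      refine ⟨K, ⟨hK, ?_⟩, rfl⟩
      rw [← area_eq]
      exact h
    · rintro ⟨K, ⟨hK, h⟩, rfl⟩
      refine ⟨⟨K, hK, rfl⟩, ?_⟩
      show a ≤ area (opn ω) (fc '' K)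
      rw [area_eq]
      exact h
  rw [e, Set.ncard_image_of_injective]
  intro K K' h
  exact image_inj h

theorem kap0_eq : kap0 = 1 / (8 * √3 * π) := by
  unfold kap0 cN
  field_simp
  norm_num

theorem dev_eq (n X : ℕ) (ω : sqLattice.edgeSet → Bool) :
    dev n X ω = Pool.Agent.H78CZ.dev n X (opn ω) := by
  unfold dev Pool.Agent.H78CZ.dev
  have e : ∑ a ∈ Finset.Icc 1 X, (count n a ω : ℝ) = ∑ a ∈ Finset.Icc 1 X, (cn n a (opn ω) : ℝ) :=
    Finset.sum_congr rfl fun a _ => by rw [count_eq]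
  rw [e, kap0_eq]
  have e2 : vol n = Pool.Agent.H78CZ.vol n := rfl
  rw [e2]
  congr 2
  ring

theorem clusters_finite (n : ℕ) (ω : sqLattice.edgeSet → Bool) : (clusters n ω).Finite := by
  have h := Pool.Agent.H78CZ.CL_finite n (opn ω)
  rw [CL_image] at h
  exact h.of_finite_image fun K _ K' _ h => image_inj h

theorem total_eq (n : ℕ) (ω : sqLattice.edgeSet → Bool) :
    ∑ᶠ K ∈ clusters n ω, (hullArea ω K : ℝ) =
      ∑ a ∈ Finset.Icc 1 ((2 * n + 1) ^ 2), (count n a ω : ℝ) := by
  classical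
  have e1 : ∑ a ∈ Finset.Icc 1 ((2 * n + 1) ^ 2), (count n a ω : ℝ) =
      (Pool.Agent.H78CZ.SX n ((2 * n + 1) ^ 2) (opn ω) : ℝ) := by
    rw [← Pool.Agent.H78CZ.sum_cn]
    push_cast
    exact Finset.sum_congr rfl fun a _ => by rw [count_eq]
  have e2 : (Pool.Agent.H78CZ.SX n ((2 * n + 1) ^ 2) (opn ω) : ℝ) =
      ∑ K ∈ CLf n (opn ω), (area (opn ω) K : ℝ) := by
    unfold Pool.Agent.H78CZ.SX
    push_cast
    apply Finset.sum_congr rfl
    intro K hK
    rw [mem_CLf] at hK
    have h1 : area (opn ω) K ≤ (2 * n + 1) ^ 2 := by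
      unfold area
      rw [← Pool.Agent.H78CZ.card_vb, ← Set.ncard_coe_finset]
      exact Set.ncard_le_ncard (Pool.Agent.H78CZ.CL_hul hK) (Finset.finite_toSet _)
    apply min_eq_left
    exact_mod_cast h1
  have e3 : CLf n (opn ω) = (clusters_finite n ω).toFinset.image (fun K => fc '' K) := by
    ext K
    rw [mem_CLf, CL_image, Finset.mem_image]
    simp only [Set.Finite.mem_toFinset, Set.mem_image]
  rw [e1, e2, e3, Finset.sum_image fun K _ K' _ h => image_inj h,
    finsum_mem_eq_finite_toFinset_sum _ (clusters_finite n ω)]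
  exact Finset.sum_congr rfl fun K _ => by rw [area_eq]

end transfer

theorem log_ratio : Tendsto (fun n : ℕ => Real.log (vol n) / Real.log n) atTop (𝓝 2) := by
  have hlog : Tendsto (fun n : ℕ => Real.log (n : ℝ)) atTop atTop :=
    Real.tendsto_log_atTop.comp tendsto_natCast_atTop_atTop
  have h1 : Tendsto (fun n : ℕ => 2 + 2 * Real.log 3 / Real.log n) atTop (𝓝 (2 + 0)) :=
    tendsto_const_nhds.add (hlog.const_div_atTop (2 * Real.log 3))
  rw [add_zero] at h1
  refine tendsto_of_tendsto_of_tendsto_of_le_of_le' tendsto_const_nhds h1 ?_ ?_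
  · filter_upwards [eventually_ge_atTop 2] with n hn
    have hnR : (2 : ℝ) ≤ n := by exact_mod_cast hn
    have h2 : 0 < Real.log n := Real.log_pos (by linarith)
    rw [le_div_iff₀ h2]
    unfold vol
    rw [Real.log_pow]
    have h3 : Real.log n ≤ Real.log (2 * n + 1) := Real.log_le_log (by linarith) (by linarith)
    push_cast
    linarith
  · filter_upwards [eventually_ge_atTop 2] with n hn
    have hnR : (2 : ℝ) ≤ n := by exact_mod_cast hn
    have h2 : 0 < Real.log n := Real.log_pos (by linarith)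
    rw [div_le_iff₀ h2, add_mul, div_mul_cancel₀ _ h2.ne']
    unfold vol
    rw [Real.log_pow]
    have h3 : Real.log (2 * n + 1) ≤ Real.log (3 * n) := Real.log_le_log (by linarith) (by linarith)
    rw [Real.log_mul (by norm_num) (by linarith)] at h3
    push_cast
    linarith

/-- **The Cardy-Ziff law.** -/
theorem result :
    -- the density of clusters of hull area at least `a` in the infinite lattice
    (∃ (ν : ℕ → ℝ) (C : ℝ), 0 < C ∧
      (∀ᵐ ω ∂(bondLaw hlf), ∀ a : ℕ,
        Tendsto (fun n => (count n a ω : ℝ) / vol n) atTop (𝓝 (ν a))) ∧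
      (∀ a : ℕ, 1 ≤ a → 1 / (C * a) ≤ ν a ∧ ν a ≤ C / a) ∧
      (∀ X : ℕ, 1 ≤ X → |∑ a ∈ Finset.Icc 1 X, ν a - Real.log X / (8 * √3 * π)| ≤ C)) ∧
    -- finite boxes, all scales simultaneously
    (∃ C : ℝ, 0 < C ∧ ∀ n : ℕ, 1 ≤ n → ∀ L : ℝ, 0 < L →
      (bondLaw hlf).real {ω | ∃ X : ℕ, 1 ≤ X ∧ X ≤ (2 * n + 1) ^ 2 ∧ L * vol n < dev n X ω} ≤
        C / L ^ 2) ∧
    -- all clusters of the box, up to the macroscopic ones
    (∀ ε : ℝ, 0 < ε → ∃ δ : ℝ, 0 < δ ∧ ∀ n : ℕ, 1 ≤ n →
      (bondLaw hlf).real {ω | ∃ a : ℕ, 1 ≤ a ∧ (a : ℝ) ≤ δ * vol n ∧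
        ¬ (δ * vol n / a ≤ count n a ω ∧ (count n a ω : ℝ) ≤ vol n / (δ * a))} ≤ ε) ∧
    -- almost sure asymptotics, uniform in the scale, and the total area
    (∀ᵐ ω ∂(bondLaw hlf),
      (∀ ε : ℝ, 0 < ε → ∀ᶠ n : ℕ in atTop, ∀ X : ℕ, 1 ≤ X → X ≤ (2 * n + 1) ^ 2 →
        dev n X ω ≤ ε * (vol n * Real.log n)) ∧
      Tendsto (fun n => (∑ᶠ K ∈ clusters n ω, (hullArea ω K : ℝ)) / (vol n * Real.log n)) atTop
        (𝓝 (1 / (4 * √3 * π)))) := by
  refine ⟨?_, ?_, ?_, ?_⟩
  · obtain ⟨C1, hC1, h1⟩ := Pool.Agent.H78CZ.nu_law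
    obtain ⟨c, C2, hc, hC2, h2⟩ := Pool.Agent.H78CZ.nu_bounds
    refine ⟨Pool.Agent.H78CZ.nu, max (max C1 C2) (1 / c),
      lt_max_of_lt_left (lt_max_of_lt_left hC1), ?_, ?_, ?_⟩
    · filter_upwards [Pool.Agent.H78CZ.ae_nu] with ω hω a
      refine (hω a).congr fun n => ?_
      rw [count_eq]
      rfl
    · intro a ha
      have ha0 : (0 : ℝ) < a := by exact_mod_cast ha
      refine ⟨?_, ?_⟩
      · refine le_trans ?_ (h2 a ha).1
        rw [div_le_div_iff₀ (by positivity) ha0, one_mul]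
        have h3 : 1 ≤ c * max (max C1 C2) (1 / c) := by
          have := mul_le_mul_of_nonneg_left (le_max_right (max C1 C2) (1 / c)) hc.le
          rwa [mul_one_div_cancel hc.ne'] at this
        nlinarith
      · refine (h2 a ha).2.trans (div_le_div_of_nonneg_right ?_ ha0.le)
        exact (le_max_right _ _).trans (le_max_left _ _)
    · intro X hX
      have h3 := h1 X hX
      rw [kap0_eq] at h3
      have e : Real.log X / (8 * √3 * π) = 1 / (8 * √3 * π) * Real.log X := by ring
      rw [e]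
      exact h3.trans ((le_max_left _ _).trans (le_max_left _ _))
  · obtain ⟨C, hC, h⟩ := Pool.Agent.H78CZ.dev_pr
    refine ⟨C, hC, fun n hn L hL => ?_⟩
    simp only [dev_eq]
    exact h n hn L hL
  · intro ε hε
    obtain ⟨δ, hδ, h⟩ := Pool.Agent.H78CZ.zipf ε hε
    refine ⟨δ, hδ, fun n hn => ?_⟩
    simp only [count_eq]
    exact h n hn
  · filter_upwards [Pool.Agent.H78CZ.ae_dev] with ω hω
    have h0 : ∀ ε : ℝ, 0 < ε → ∀ᶠ n : ℕ in atTop, ∀ X : ℕ, 1 ≤ X → X ≤ (2 * n + 1) ^ 2 →
        dev n X ω ≤ ε * (vol n * Real.log n) := by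
      intro ε hε
      filter_upwards [hω ε hε] with n hn X h1 h2
      rw [dev_eq]
      exact hn X h1 h2
    refine ⟨h0, ?_⟩
    have h1 : Tendsto (fun n : ℕ => Real.log (vol n) / Real.log n * (1 / (8 * √3 * π))) atTop
        (𝓝 (2 * (1 / (8 * √3 * π)))) := log_ratio.mul_const _
    have e : 2 * (1 / (8 * √3 * π)) = 1 / (4 * √3 * π) := by
      field_simp
      norm_num
    rw [e] at h1
    have h2 : Tendsto (fun n : ℕ => (∑ᶠ K ∈ clusters n ω, (hullArea ω K : ℝ)) /
        (vol n * Real.log n) - Real.log (vol n) / Real.log n * (1 / (8 * √3 * π))) atTop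
        (𝓝 0) := by
      rw [Metric.tendsto_atTop]
      intro ε hε
      obtain ⟨N, hN⟩ := eventually_atTop.1 (h0 (ε / 2) (by positivity))
      refine ⟨max N 2, fun n hn => ?_⟩
      have hn2 : 2 ≤ n := (le_max_right _ _).trans hn
      have hnR : (2 : ℝ) ≤ n := by exact_mod_cast hn2
      have hl : 0 < Real.log n := Real.log_pos (by linarith)
      have hv : 0 < vol n := Pool.Agent.H78CZ.vol_pos n
      have h3 := hN n ((le_max_left _ _).trans hn) ((2 * n + 1) ^ 2)
        (Nat.one_le_pow _ _ (by omega)) le_rfl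
      unfold dev at h3
      rw [← total_eq] at h3
      have e4 : (((2 * n + 1) ^ 2 : ℕ) : ℝ) = vol n := Pool.Agent.H78CZ.vol_cast n
      rw [e4] at h3
      have e5 : (∑ᶠ K ∈ clusters n ω, (hullArea ω K : ℝ)) / (vol n * Real.log n) -
          Real.log (vol n) / Real.log n * (1 / (8 * √3 * π)) =
          (∑ᶠ K ∈ clusters n ω, (hullArea ω K : ℝ) -
            vol n * (Real.log (vol n) / (8 * √3 * π))) / (vol n * Real.log n) := by
        field_simp
      rw [Real.dist_eq, sub_zero, e5, abs_div, abs_of_pos (by positivity : 0 < vol n * Real.log n),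
        div_lt_iff₀ (by positivity)]
      refine h3.trans_lt ?_
      exact mul_lt_mul_of_pos_right (by linarith) (by positivity)
    have h3 := h2.add h1
    rw [zero_add] at h3
    refine h3.congr fun n => ?_
    ring

end Pool.Agent.Results.MP_b3e76a_pr.CardyZiffLaw
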