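import Pool.Agent.H78NF.Gs

/-!
# The nesting field of critical bond percolation on `ℤ²` is asymptotically Gaussian and log-correlated

Critical bond percolation on the whole square lattice (`p = 1/2`, the FK model with `q = 1` at its
self-dual point). `layers R v ω` is the minimal number of colour changes of a path from the vertex
`v` to the sup distance `R` of `v`, i.e. the number of nested alternating (open / dual-open) layers
around `v` in the box of radius `R` centred at `v`. Let `c = 1 / (2 √3 π)` and
`σ² = 2 / (3 √3 π) - 1 / (2 π²)` be the density and the variance constant of the nested loops of CLE₆.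

Let `v n i` be finitely many vertices and `R n i` radii which may depend on `n`, such that
`log (R n i) / log n → s i` and `log (1 + |v n i - v n j|) / log n → a i j`. Then the vector of the
`(layers (R n i) (v n i) - c log (R n i)) / √(σ² log n)` converges in law to the centred Gaussian
vector with the covariances `max 0 (min (s i) (s j) - a i j)`.

Special cases: for one vertex, `t ↦ (layers (n ^ t) v - c t log n) / √(σ² log n)` converges to the
Brownian motion (finite-dimensional distributions); for the radius `n` and vertices at the distance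
`n ^ a` the correlation tends to `1 - a`.

Definitions: `sqLattice`, `bondLaw`, `hlf` (`= 1/2`), `openGraph` in `Pool.Agent.H974R2.Model`,
`Pool.Agent.H974R2.Infinite`; `Pt`, `Corner`, `Free`, `Change` in `Pool.Agent.H863R2.NL.Defs`;
`ReachFrom`, `dist2`, `layers` in `Pool.Agent.W819.EN.Layers`.

Proof (`Pool.Agent.H78NF.K` - `Gs`): characteristic functions of the numbers of layers of annuli,
uniform in the radii; windows in the logarithmic scale around different vertices are either
independent or almost equal; the number of windows tends to infinity at the end.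
-/

set_option autoImplicit false

namespace Pool.Agent.Results.MP_b3e76a_pr.NestingField

open MeasureTheory ProbabilityTheory H974 Filter Pool.Agent.W819.EN
open scoped Real Topology

/-- The sup distance of two vertices. -/
def dist (v w : ℤ × ℤ) : ℤ := max |v.1 - w.1| |v.2 - w.2|

/-- The vector of the `(layers (R n i) (v n i) - c log (R n i)) / √(σ² log n)`, where
`c = 1 / (2 √3 π)` and `σ² = 2 / (3 √3 π) - 1 / (2 π²)`. -/
noncomputable def field {ι : Type} (v : ℕ → ι → ℤ × ℤ) (R : ℕ → ι → ℕ) (n : ℕ)
    (ω : sqLattice.edgeSet → Bool) : EuclideanSpace ℝ ι :=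
  WithLp.toLp 2 fun i => ((layers (R n i) (v n i) ω : ℝ) - Real.log (R n i) / (2 * √3 * π)) /
    √((2 / (3 * √3 * π) - 1 / (2 * π ^ 2)) * Real.log n)

/-- The limit covariance matrix. -/
noncomputable def covariance {ι : Type} (s : ι → ℝ) (a : ι → ι → ℝ) : Matrix ι ι ℝ :=
  Matrix.of fun i j => max 0 (min (s i) (s j) - a i j)

theorem result {ι : Type} [Fintype ι] [DecidableEq ι] (v : ℕ → ι → ℤ × ℤ) (R : ℕ → ι → ℕ)
    (s : ι → ℝ) (a : ι → ι → ℝ) (hR : ∀ n i, 1 ≤ R n i)
    (hs : ∀ i, Tendsto (fun n : ℕ => Real.log (R n i) / Real.log n) atTop (𝓝 (s i)))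
    (ha : ∀ i j, Tendsto (fun n : ℕ => Real.log (1 + (dist (v n i) (v n j) : ℝ)) / Real.log n) atTop
      (𝓝 (a i j))) :
    (covariance s a).PosSemidef ∧
    TendstoInDistribution (field v R) atTop (id : EuclideanSpace ℝ ι → EuclideanSpace ℝ ι)
      (fun _ => bondLaw hlf) (multivariateGaussian 0 (covariance s a)) := by
  have H : Pool.Agent.H78NF.Hyp v R s a := ⟨hR, hs, ha⟩
  have e : field v R = Pool.Agent.H78NF.Xv v R := by
    funext n ω
    unfold field Pool.Agent.H78NF.Xv
    congr 1
    funext i
    rw [Pool.Agent.H78NF.layers_W]
    have e1 : Real.log (R n i) / (2 * √3 * π) = Pool.Agent.H863R2.NL.cN * Real.log (R n i) := by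
      unfold Pool.Agent.H863R2.NL.cN
      ring
    rw [e1]
    rfl
  exact ⟨Pool.Agent.H78NF.Sg_psd H, e ▸ Pool.Agent.H78NF.field_clt H⟩

end Pool.Agent.Results.MP_b3e76a_pr.NestingField
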