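import Pool.Agent.S77.WP.Fin
import Pool.Agent.H160R2.MU.T_FIN

/-!
# Winding of `2 k` arms of critical bond percolation on `ℤ²`

Critical bond percolation on the square lattice, `k ≥ 2`.  The slit is the set of the vertices
`(i, i)`, `0 < 2 i < k`; around it there are `k` vertices (`tip`).  `Arms k n`: these `k` vertices are
in different open clusters of the box `max (|x|, |y|) ≤ n` cut along the slit, and each of them is
connected to the boundary of the box (`k` open arms, separated by `k` closed dual arms).  The winding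
number of an arm counts its crossings of the half line `{(x, x) : 2 x ≥ k}` (with signs).

Theorem: on `Arms k n` the winding number `W` of the arms is well defined up to `8`; its exponential
moments are of exact order
`E [exp (s 2 π W); Arms k n] ≍ n ^ (-(4 k² - 1) / 12 + 3 s² / (4 k²))` for every real `s`, and it
satisfies the large deviation principle
`P (Arms k n, 2 π W ≥ x log n) = n ^ (-(4 k² - 1) / 12 - k² x² / 3 + o(1))` for every `x > 0`, and the
same for `- W`.

Proof: exact law of the winding on the infinite cylinder (`Pool.Agent.S77.WD`), comparison of the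
plane with the cylinder in both directions with the weight `exp (s 2 π W)` (`Pool.Agent.S77.WP`).  The
recursion with an inner event (`I_*`) and the tail bound for the number of disjoint large clusters
(`Tail`) are due to helper78.  Used from the library: the planar bounds for even arm events
(`Pool.Agent.H160R2.MU`).
-/

set_option autoImplicit false

namespace Pool.Agent.Results.MP_b3e76a_pr.PlanarWinding

open MeasureTheory Filter Topology

/-- The square lattice: two points of `ℤ²` are adjacent when they differ by one in exactly one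
coordinate. -/
def Z2 : SimpleGraph (ℤ × ℤ) where
  Adj u v := |u.1 - v.1| + |u.2 - v.2| = 1
  symm := ⟨fun u v h => by rw [abs_sub_comm v.1, abs_sub_comm v.2]; exact h⟩
  loopless := ⟨fun u h => by simp at h⟩

/-- Critical bond percolation: every edge of the square lattice is open (`true`) with
probability `1/2`, independently of the other edges. -/
noncomputable def crit : Measure (Z2.edgeSet → Bool) :=
  Measure.infinitePi (fun _ => ProbabilityTheory.bernoulliMeasure true false
    ⟨1/2, by norm_num, by norm_num⟩)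

/-- The open edges of the box `max (|x|, |y|) ≤ n` cut along the slit, on the covering around the
slit.  Every vertex `v` has a copy `(v, false)`, end of the edges above the diagonal, and a copy
`(v, true)`, end of the edges below the diagonal, and these copies have a level in `ℤ`; the two
copies are joined unless `v = (i, i)` with `0 < 2 i < k` (the slit). The level increases by `1` when
the half line `{(x, x) : 2 x ≥ k}` is crossed from above to below. -/
inductive Cover (k n : ℕ) (ω : Z2.edgeSet → Bool) :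
    ((ℤ × ℤ) × Bool) × ℤ → ((ℤ × ℤ) × Bool) × ℤ → Prop
  | edge (u v : ℤ × ℤ) (l : ℤ) (h : s(u, v) ∈ Z2.edgeSet) : ω ⟨s(u, v), h⟩ = true →
      max |u.1| |u.2| ≤ n → max |v.1| |v.2| ≤ n →
      Cover k n ω ((u, decide (0 < (u.1 - u.2) + (v.1 - v.2))), l)
        ((v, decide (0 < (u.1 - u.2) + (v.1 - v.2))), l)
  | join (v : ℤ × ℤ) (l : ℤ) : max |v.1| |v.2| ≤ n → ¬ (v.1 = v.2 ∧ 0 < 2 * v.1 ∧ 2 * v.1 < k) →
      Cover k n ω ((v, false), l) ((v, true), l + if v.1 = v.2 ∧ (k : ℤ) ≤ 2 * v.1 then 1 else 0)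

/-- `x` and `y` are connected in the cut box by an open path with winding number `l`. -/
def Conn (k n : ℕ) (ω : Z2.edgeSet → Bool) (x y : (ℤ × ℤ) × Bool) (l : ℤ) : Prop :=
  Relation.EqvGen (Cover k n ω) (x, 0) (y, l)

/-- The `k` vertices around the slit: number `i`, `i < 2 k` even. -/
def tip (k i : ℕ) : (ℤ × ℤ) × Bool :=
  if i ≤ k then (((i / 2 : ℕ), (i / 2 : ℕ)), false)
  else ((((2 * k - i) / 2 : ℕ), ((2 * k - i) / 2 : ℕ)), true)

/-- The `k` vertices around the slit are in different open clusters, each of which reaches the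
boundary of the box. -/
def Arms (k n : ℕ) (ω : Z2.edgeSet → Bool) : Prop :=
  (∀ i j : ℕ, i < 2 * k → j < 2 * k → i % 2 = 0 → j % 2 = 0 → i ≠ j →
    ∀ l : ℤ, ¬ Conn k n ω (tip k i) (tip k j) l) ∧
  (∀ i : ℕ, i < 2 * k → i % 2 = 0 → ∃ (y : ℤ × ℤ) (β : Bool) (l : ℤ), max |y.1| |y.2| = n ∧
    Conn k n ω (tip k i) (y, β) l)

/-- `l` is the winding number of an open path from one of the `k` vertices around the slit to the
boundary of the box. -/
def Winding (k n : ℕ) (ω : Z2.edgeSet → Bool) (l : ℤ) : Prop :=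
  ∃ i : ℕ, i < 2 * k ∧ i % 2 = 0 ∧ ∃ (y : ℤ × ℤ) (β : Bool), max |y.1| |y.2| = n ∧
    Conn k n ω (tip k i) (y, β) l

/-! ### comparison with the library -/

open H974 Pool.Agent.H160R2.ML Pool.Agent.H160R2.MU Pool.Agent.S77.WP

theorem cover_iff (k n : ℕ) (ω : Z2.edgeSet → Bool) (a b : ((ℤ × ℤ) × Bool) × ℤ) :
    Relation.EqvGen (Cover k n ω) a b ↔ Cv k n (opn ω) a b := by
  constructor
  · intro h
    induction h with
    | rel x y h =>
      cases h with
      | edge u v l h1 h2 h3 h4 =>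
        obtain ⟨e, he⟩ := adj_edge ((SimpleGraph.mem_edgeSet _).mp h1)
        rcases he with ⟨h5, h6⟩ | ⟨h5, h6⟩
        · have hE : e ∈ opn ω := by
            have : toE e = ⟨s(u, v), h1⟩ := by
              apply Subtype.ext
              simp only [toE, h5, h6]
            show ω (toE e) = true
            rw [this]; exact h2
          have := CLv.edge (k := k) (R := (n : ℤ)) e l hE (by rw [h5]; exact h3)
            (by rw [h6]; exact h4)
          rw [TFIN.side_eq, h5, h6] at this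
          exact Relation.EqvGen.rel _ _ this
        · have hE : e ∈ opn ω := by
            have : toE e = ⟨s(u, v), h1⟩ := by
              apply Subtype.ext
              simp only [toE, h5, h6]
              exact Sym2.eq_swap
            show ω (toE e) = true
            rw [this]; exact h2
          have := CLv.edge (k := k) (R := (n : ℤ)) e l hE (by rw [h5]; exact h4)
            (by rw [h6]; exact h3)
          rw [TFIN.side_eq, h5, h6, add_comm] at this
          exact Relation.EqvGen.symm _ _ (Relation.EqvGen.rel _ _ this)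
      | join v l h1 h2 => exact Relation.EqvGen.rel _ _ (CLv.idn v l h1 h2)
    | refl x => exact Relation.EqvGen.refl _
    | symm x y _ h => exact Relation.EqvGen.symm _ _ h
    | trans x y z _ _ h1 h2 => exact Relation.EqvGen.trans _ _ _ h1 h2
  · intro h
    unfold Cv at h
    induction h with
    | rel x y h =>
      cases h with
      | edge e l h1 h2 h3 =>
        have h4 : s(src e, tgt e) ∈ Z2.edgeSet := edge_mem e
        have := Cover.edge (k := k) (n := n) (ω := ω) (src e) (tgt e) l h4 h1 h2 h3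
        rw [← TFIN.side_eq] at this
        exact Relation.EqvGen.rel _ _ this
      | idn v l h1 h2 => exact Relation.EqvGen.rel _ _ (Cover.join v l h1 h2)
    | refl x => exact Relation.EqvGen.refl _
    | symm x y _ h => exact Relation.EqvGen.symm _ _ h
    | trans x y z _ _ h1 h2 => exact Relation.EqvGen.trans _ _ _ h1 h2

theorem agree (n : ℕ) (ω : Z2.edgeSet → Bool) :
    ∀ e ∈ boxE n, (e ∈ opn ω ↔ e ∈ (↑(FF (boxE n) ω) : Set Edg)) := by
  intro e he
  rw [Finset.mem_coe, mem_FF]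
  exact ⟨fun h => ⟨he, h⟩, fun h => h.2⟩

theorem conn_iff (k n : ℕ) (ω : Z2.edgeSet → Bool) (x y : (ℤ × ℤ) × Bool) :
    (∃ l, Conn k n ω x y l) ↔ Cb k n (opn ω) x y := by
  constructor
  · rintro ⟨l, h⟩
    exact Cb_of_Cv ((cover_iff k n ω _ _).1 h)
  · intro h
    obtain ⟨l, hl⟩ := Cv_lift h 0
    exact ⟨l, (cover_iff k n ω _ _).2 hl⟩

theorem arms_iff (k n : ℕ) (ω : Z2.edgeSet → Bool) : Arms k n ω ↔ ω ∈ EvS k n := by
  have h1 : ω ∈ EvS k n ↔ SE k n (opn ω) := (TLB.SE_congr (agree n ω)).symm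
  rw [h1]
  unfold Arms SE
  constructor
  · rintro ⟨h2, h3⟩
    refine ⟨fun i j hi hj hi2 hj2 hij hc => ?_, fun i hi hi2 => ?_⟩
    · obtain ⟨l, hl⟩ := (conn_iff k n ω _ _).2 hc
      exact h2 i j hi hj hi2 hj2 hij l hl
    · obtain ⟨y, β, l, hy, hl⟩ := h3 i hi hi2
      exact ⟨y, β, hy, (conn_iff k n ω _ _).1 ⟨l, hl⟩⟩
  · rintro ⟨h2, h3⟩
    refine ⟨fun i j hi hj hi2 hj2 hij l hl => ?_, fun i hi hi2 => ?_⟩
    · exact h2 i j hi hj hi2 hj2 hij ((conn_iff k n ω _ _).1 ⟨l, hl⟩)
    · obtain ⟨y, β, hy, hc⟩ := h3 i hi hi2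
      obtain ⟨l, hl⟩ := (conn_iff k n ω _ _).2 hc
      exact ⟨y, β, l, hy, hl⟩

theorem winding_iff (k n : ℕ) (ω : Z2.edgeSet → Bool) (l : ℤ) :
    Winding k n ω l ↔ WR k n (↑(FF (boxE n) ω) : Set Edg) l := by
  rw [← WR_congr (agree n ω)]
  unfold Winding WR
  constructor
  · rintro ⟨i, hi, hi2, y, β, hy, hc⟩
    exact ⟨i, hi, hi2, (y, β), hy, (cover_iff k n ω _ _).1 hc⟩
  · rintro ⟨i, hi, hi2, ⟨y, β⟩, hy, hc⟩
    exact ⟨i, hi, hi2, y, β, hy, (cover_iff k n ω _ _).2 hc⟩

theorem xpn_eq {k : ℕ} (hk : 2 ≤ k) (s : ℝ) : xpn k (s * (2 * Real.pi)) =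
    -((4 * (k : ℝ) ^ 2 - 1) / 12) + 3 * s ^ 2 / (4 * k ^ 2) := by
  have hπ := Real.pi_pos
  have hk0 : (0 : ℝ) < k := by exact_mod_cast (by omega : 0 < k)
  unfold xpn Pool.Agent.S77.WD.ex2
  have e : (-(s * (2 * Real.pi) / (2 * Real.pi))) ^ 2 = s ^ 2 := by
    rw [mul_div_assoc, div_self (by positivity), mul_one, neg_sq]
  rw [e]

/-- **Winding of `2 k` arms in the plane.** -/
theorem result (k : ℕ) (hk : 2 ≤ k) :
    (∀ n : ℕ, k ≤ n → ∀ ω : Z2.edgeSet → Bool, Arms k n ω →
      (∃ l : ℤ, Winding k n ω l) ∧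
      ∀ l l' : ℤ, Winding k n ω l → Winding k n ω l' → |l - l'| ≤ 8) ∧
    (∀ s : ℝ, ∃ c C : ℝ, 0 < c ∧ 0 < C ∧ ∀ n : ℕ, k ≤ n →
      ∀ W : (Z2.edgeSet → Bool) → ℤ, Measurable W → (∀ ω, Arms k n ω → Winding k n ω (W ω)) →
      c * (n : ℝ) ^ (-((4 * (k : ℝ) ^ 2 - 1) / 12) + 3 * s ^ 2 / (4 * k ^ 2)) ≤
        ∫ ω in {ω | Arms k n ω}, Real.exp (s * (2 * Real.pi * W ω)) ∂crit ∧
      ∫ ω in {ω | Arms k n ω}, Real.exp (s * (2 * Real.pi * W ω)) ∂crit ≤
        C * (n : ℝ) ^ (-((4 * (k : ℝ) ^ 2 - 1) / 12) + 3 * s ^ 2 / (4 * k ^ 2))) ∧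
    (∀ x : ℝ, 0 < x → ∀ W : ℕ → (Z2.edgeSet → Bool) → ℤ,
      (∀ n : ℕ, k ≤ n → ∀ ω, Arms k n ω → Winding k n ω (W n ω)) →
      Tendsto (fun n : ℕ => Real.log (crit.real {ω | Arms k n ω ∧
        x * Real.log n ≤ 2 * Real.pi * W n ω}) / Real.log n) atTop
        (𝓝 (-((4 * (k : ℝ) ^ 2 - 1) / 12) - k ^ 2 * x ^ 2 / 3)) ∧
      Tendsto (fun n : ℕ => Real.log (crit.real {ω | Arms k n ω ∧
        2 * Real.pi * W n ω ≤ -(x * Real.log n)}) / Real.log n) atTop
        (𝓝 (-((4 * (k : ℝ) ^ 2 - 1) / 12) - k ^ 2 * x ^ 2 / 3))) := by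
  have hset : ∀ n : ℕ, {ω : Z2.edgeSet → Bool | Arms k n ω} = EvS k n := by
    intro n
    ext ω
    exact arms_iff k n ω
  refine ⟨fun n hn ω hA => ?_, fun s => ?_, fun x hx W hW => ⟨?_, ?_⟩⟩
  · have hSE : SE k n (↑(FF (boxE n) ω) : Set Edg) := (arms_iff k n ω).1 hA
    refine ⟨?_, fun l l' h h' => ?_⟩
    · obtain ⟨l, hl⟩ := WR_exists hk hSE
      exact ⟨l, (winding_iff k n ω l).2 hl⟩
    · exact WR_close hk hn hSE ((winding_iff k n ω l).1 h) ((winding_iff k n ω l').1 h')
  · obtain ⟨c, C, hc, hC, h⟩ := ZR_bounds hk (s * (2 * Real.pi))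
    rw [xpn_eq hk] at h
    refine ⟨Real.exp (-(8 * |s * (2 * Real.pi)|)) * c, Real.exp (8 * |s * (2 * Real.pi)|) * C,
      by positivity, by positivity, fun n hn W hm hW => ?_⟩
    obtain ⟨h1, h2⟩ := h n hn
    have h3 := int_W (R := n) hk hn (s * (2 * Real.pi)) (W := W) hm
      (fun ω hω => (winding_iff k n ω _).1 (hW ω ((arms_iff k n ω).2 hω)))
    have e1 : ∫ ω in {ω | Arms k n ω}, Real.exp (s * (2 * Real.pi * W ω)) ∂crit =
        ∫ ω in EvS k n, Real.exp (s * (2 * Real.pi) * W ω) ∂(bondLaw hlf) := by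
      rw [hset]
      have e2 : ∀ ω : Z2.edgeSet → Bool, Real.exp (s * (2 * Real.pi * W ω)) =
          Real.exp (s * (2 * Real.pi) * W ω) := fun ω => by congr 1; ring
      simp only [e2]
      rfl
    rw [e1, mul_assoc, mul_assoc]
    exact ⟨(mul_le_mul_of_nonneg_left h1 (Real.exp_pos _).le).trans h3.1,
      h3.2.trans (mul_le_mul_of_nonneg_left h2 (Real.exp_pos _).le)⟩
  · have h := ldp_W hk (sg := 1) (Or.inl rfl) hx (W := W)
      (fun n hn ω hω => (winding_iff k n ω _).1 (hW n hn ω ((arms_iff k n ω).2 hω)))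
    refine h.congr fun n => ?_
    congr 2
    have e : {ω : Om | ω ∈ EvS k n ∧ x * Real.log n ≤ 2 * Real.pi * (((1 : ℤ) * W n ω : ℤ) : ℝ)} =
        {ω : Z2.edgeSet → Bool | Arms k n ω ∧ x * Real.log n ≤ 2 * Real.pi * W n ω} := by
      ext ω
      show (ω ∈ EvS k n ∧ x * Real.log n ≤ 2 * Real.pi * (((1 : ℤ) * W n ω : ℤ) : ℝ)) ↔
        (Arms k n ω ∧ x * Real.log n ≤ 2 * Real.pi * W n ω)
      rw [one_mul]
      exact and_congr_left' (arms_iff k n ω).symm
    rw [e]
    rfl
  · have h := ldp_W hk (sg := -1) (Or.inr rfl) hx (W := W)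
      (fun n hn ω hω => (winding_iff k n ω _).1 (hW n hn ω ((arms_iff k n ω).2 hω)))
    refine h.congr fun n => ?_
    congr 2
    have e : {ω : Om | ω ∈ EvS k n ∧ x * Real.log n ≤ 2 * Real.pi * (((-1 : ℤ) * W n ω : ℤ) : ℝ)} =
        {ω : Z2.edgeSet → Bool | Arms k n ω ∧ 2 * Real.pi * W n ω ≤ -(x * Real.log n)} := by
      ext ω
      show (ω ∈ EvS k n ∧ x * Real.log n ≤ 2 * Real.pi * (((-1 : ℤ) * W n ω : ℤ) : ℝ)) ↔
        (Arms k n ω ∧ 2 * Real.pi * W n ω ≤ -(x * Real.log n))
      refine and_congr (arms_iff k n ω).symm ?_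
      push_cast
      constructor <;> intro h <;> linarith
    rw [e]
    rfl

end Pool.Agent.Results.MP_b3e76a_pr.PlanarWinding
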