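import Pool.Agent.S77.WD.Final

/-!
# The winding angle of `2k` arms of critical bond percolation: exact law, exponents, Gaussian limit,
large deviations

Critical bond percolation on the square lattice, in its medial picture, on the infinite cylinder
`ℤ/2n × ℤ` (definitions: `Pool/Agent/S77/WD/Model.lean`, `Pool/Agent/S77/WD/Meas.lean`).

* `crit n`: in every tile (unit square) one of the two diagonals is present, by independent fair
  coins.  The diagonals on the even corners are the open edges, those on the odd corners are the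
  dual open edges.
* The slit `0` is the segment from the corner `(0,0)` to `(k,0)`; it has `2k` corners.  On the
  universal cover there is a copy `s` of the slit for every integer `s`.
* `Arms n k ω`: the `2k` corners of the slit are in `2k` different clusters (primal and dual
  clusters alternate) of the slit universal cover, each of which reaches another copy of the slit:
  `2k` arms from the slit to distance `2n`, around the cylinder.  (For `k = 1`: the interface
  through the medial edge at the slit is a loop around the cylinder.)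
* `Wind n k ω w`: the arms turn clockwise by the angle `α = π w / (2k)` around the slit.  Exactly:
  take a path in a cluster from a corner of the slit `0` to a corner of the slit `1`; then `π w / k`
  is the sum of its clockwise turning around the slit `0`, and of the clockwise turning of the
  reversed path around the slit `1`, where the `2k` corners of a slit are at the angles which are
  the multiples of `π / k`.
-/

namespace Pool.Agent.Results.MP_b3e76a_pr.WindingOfArms

open Pool.Agent.S77.WD MeasureTheory ProbabilityTheory Filter Topology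

/-- `E[f(α); arms]`, where `α = π w / (2k)` is the winding angle -/
noncomputable def expect (n k : ℕ) (f : ℝ → ℝ) : ℝ :=
  ∑' w : ℤ, f (Real.pi * w / (2 * k)) * (crit n).real {ω | Arms n k ω ∧ Wind n k ω w}

theorem expect_eq {n k : ℕ} (hn : 1 ≤ n) (hk : 1 ≤ k) (hkn : k ≤ 2 * n) (f : ℝ → ℝ) :
    expect n k f = mean n k f := by
  unfold expect mean
  refine tsum_eq_sum fun w hw => ?_
  have h1 := pw_eq hn hk hkn (uu_spec k n) w
  rw [eS_zero (uu k n) (fun h => hw (by rw [Finset.mem_Icc]; rw [abs_le] at h; exact h))] at h1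
  have h2 : pw n k w = 0 := by
    rcases mul_eq_zero.1 h1 with h | h
    · exact h
    · exact absurd h (rr_pos n).ne'
  unfold pw at h2
  rw [h2, mul_zero]

theorem result :
    -- the winding is well defined
    (∀ n k : ℕ, 1 ≤ n → 1 ≤ k → k ≤ 2 * n →
      ∀ᵐ ω ∂(crit n), Arms n k ω → ∃! w : ℤ, Wind n k ω w) ∧
    -- the exact law: given the arms, the winding is a sum of `2n-k` independent signs, with the
    -- odds `exp (u i)`, where the `exp (u i)` are the eigenvalues of `binom(2k+i+j, j)`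
    (∀ n k : ℕ, 1 ≤ n → 1 ≤ k → k ≤ 2 * n → ∃ u : Fin (2 * n - k) → ℝ,
      (∀ i, u (Fin.rev i) = - u i) ∧
      (∀ z : ℂ, (Matrix.of fun i j : Fin (2 * n - k) => (if i = j then (1 : ℂ) else 0)
        + z * ((2 * k + i.val + j.val).choose j.val : ℂ)).det =
          ∏ i, (1 + z * (Real.exp (u i) : ℂ))) ∧
      ∀ w : ℤ, (crit n).real {ω | Arms n k ω ∧ Wind n k ω w} *
        ‖(Matrix.of fun i j : Fin (2 * n) => (if i = j then (1 : ℂ) else 0)
          + Complex.exp ((Real.pi / 3 : ℝ) * Complex.I) * ((i.val + j.val).choose j.val : ℂ)).det‖ =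
        ∑ S : Finset (Fin (2 * n - k)),
          if 2 * (S.card : ℤ) - (2 * n - k : ℕ) = w then ∏ i ∈ S, Real.exp (u i) else 0) ∧
    ∀ k : ℕ, 1 ≤ k →
    -- the exponent of the arms
    (∃ c C : ℝ, 0 < c ∧ 0 < C ∧ ∀ n : ℕ, k ≤ n →
      c * (n : ℝ) ^ (-((4 * (k : ℝ) ^ 2 - 1) / 12)) ≤ (crit n).real {ω | Arms n k ω} ∧
      (crit n).real {ω | Arms n k ω} ≤ C * (n : ℝ) ^ (-((4 * (k : ℝ) ^ 2 - 1) / 12))) ∧
    -- the exponents of the arms with a spin `s`
    (∀ s : ℝ, 0 ≤ s → s ≤ 2 * k / 3 → ∃ c C : ℝ, 0 < c ∧ 0 < C ∧ ∀ n : ℕ, k ≤ n →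
      c * (n : ℝ) ^ (-((4 * (k : ℝ) ^ 2 - 1) / 12) + -(3 * s ^ 2 / (4 * k ^ 2))) ≤
        expect n k (fun α => Real.cos (s * α)) ∧
      expect n k (fun α => Real.cos (s * α)) ≤
        C * (n : ℝ) ^ (-((4 * (k : ℝ) ^ 2 - 1) / 12) + -(3 * s ^ 2 / (4 * k ^ 2)))) ∧
    -- the exponential moments of the winding angle
    (∀ lam : ℝ, ∃ c C : ℝ, 0 < c ∧ 0 < C ∧ ∀ n : ℕ, k ≤ n →
      c * (n : ℝ) ^ (-((4 * (k : ℝ) ^ 2 - 1) / 12) + 3 * lam ^ 2 / (4 * k ^ 2)) ≤
        expect n k (fun α => Real.exp (lam * α)) ∧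
      expect n k (fun α => Real.exp (lam * α)) ≤
        C * (n : ℝ) ^ (-((4 * (k : ℝ) ^ 2 - 1) / 12) + 3 * lam ^ 2 / (4 * k ^ 2))) ∧
    -- mean and variance
    (∃ C : ℝ, ∀ n : ℕ, k ≤ n → expect n k (fun α => α) = 0 ∧
      |expect n k (fun α => α ^ 2) / (crit n).real {ω | Arms n k ω} -
        6 / (2 * k) ^ 2 * Real.log n| ≤ C) ∧
    -- the central limit theorem
    (∀ x : ℝ, Tendsto (fun n : ℕ =>
      (crit n).real {ω | Arms n k ω ∧ ∃ w : ℤ, Wind n k ω w ∧
        Real.pi * w / (2 * k) ≤ x * √(6 / (2 * k) ^ 2 * Real.log n)} /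
      (crit n).real {ω | Arms n k ω}) atTop (𝓝 ((gaussianReal 0 1).real (Set.Iic x)))) ∧
    -- large deviations
    (∀ x : ℝ, 0 < x → Tendsto (fun n : ℕ =>
      Real.log ((crit n).real {ω | Arms n k ω ∧ ∃ w : ℤ, Wind n k ω w ∧
        x * Real.log n ≤ Real.pi * w / (2 * k)}) / Real.log n) atTop
      (𝓝 (-((4 * (k : ℝ) ^ 2 - 1) / 12) - k ^ 2 * x ^ 2 / 3))) := by
  refine ⟨fun n k hn hk hkn => ae_unique hn hk hkn, fun n k hn hk hkn => ?_, fun k hk => ?_⟩
  · obtain ⟨h1, h2, h3⟩ := uu_spec k n
    exact ⟨uu k n, h2, h3, fun w => by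
      have h := pw_eq hn hk hkn (uu_spec k n) w
      unfold pw rr Pool.Agent.H160R2.ML.RR Pool.Agent.H160R2.ML.Dl eS at h
      simpa only [zero_add] using h⟩
  · have hk0 : (0 : ℝ) < k := by exact_mod_cast hk
    have e6 : (6 : ℝ) / (2 * k) ^ 2 = 3 / (2 * k ^ 2) := by field_simp; ring
    refine ⟨arms_exp hk, fun s hs0 hs1 => ?_, fun lam => ?_, ?_, fun x => ?_, fun x hx => ldp_win hk hx⟩
    · obtain ⟨c, C, hc, hC, h⟩ := fou_exp hk hs0 hs1
      refine ⟨c, C, hc, hC, fun n hn => ?_⟩
      rw [expect_eq (by omega) hk (by omega)]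
      exact h n hn
    · obtain ⟨c, C, hc, hC, h⟩ := lap_exp hk lam
      refine ⟨c, C, hc, hC, fun n hn => ?_⟩
      rw [expect_eq (by omega) hk (by omega)]
      exact h n hn
    · obtain ⟨C, h⟩ := var_win hk
      refine ⟨C, fun n hn => ?_⟩
      rw [expect_eq (by omega) hk (by omega), expect_eq (by omega) hk (by omega), e6]
      exact h n hn
    · rw [e6]
      exact clt_win hk x

end Pool.Agent.Results.MP_b3e76a_pr.WindingOfArms
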